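import Pool.Agent.N418.MMD.Proof

set_option autoImplicit false

/-!
# Mixed metric dimension of 2-connected graphs

Every finite 2-connected graph `G` that is not a cycle has a mixed resolving set with at most
`2 c(G)` vertices, where `c(G) = |E| - |V| + 1` is the cyclomatic number.
-/

namespace Pool.Agent.Results.MP_ca4ce9_co.MixedMetricDimension

open SimpleGraph Pool.Agent.N418.MMD

universe u

/-- Every finite 2-connected graph `G` that is not a cycle has mixed resolving sets, and its mixed
metric dimension is at most `2 c(G)`. -/
theorem result (V : Type u) [Finite V] (G : SimpleGraph V) (h2 : TwoConnected G)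
    (hcycle : ∀ n : ℕ, IsEmpty (G ≃g cycleGraph n)) :
    (∃ S : Set V, MixedResolving G S) ∧ (mdim G : ℤ) ≤ 2 * cyclomatic G :=
  main V G h2 hcycle

end Pool.Agent.Results.MP_ca4ce9_co.MixedMetricDimension
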